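import Pool.Agent.Lib.helper3.AR3
import Pool.Agent.Lib.helper3.AR4

namespace Pool.Agent.Results.MP_a29a94_pr.Abelian

open MeasureTheory Pool.Agent.Lib.helper3.AR

lemma cd_le {G : Type} [CommGroup G] (μ : PMF G) (h1 : ∀ g, μ g⁻¹ = μ g)
    (h2 : Subgroup.closure μ.support = ⊤) (f : G → ℝ) (C : ℝ) (hC : ∀ g, |f g| ≤ C)
    (hf : ∀ g, f g = ∑' h, (μ h).toReal * f (g * h)) (a x : G) : f (a * x) ≤ f x := by
  have w1 : HasSum (fun h => (μ h).toReal) 1 := by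
    simpa [μ.tsum_coe, ← ENNReal.tsum_toReal_eq μ.apply_ne_top] using
      ENNReal.hasSum_toReal μ.tsum_coe_ne_top
  have w2 : ∀ g, HasSum (fun h => (μ h).toReal * f (g * h)) (f g) := fun g => by
    rw [hf g]
    refine (Summable.of_norm_bounded (w1.summable.mul_right C) fun h => ?_).hasSum
    rw [Real.norm_eq_abs, abs_mul, abs_of_nonneg ENNReal.toReal_nonneg]
    exact mul_le_mul_of_nonneg_left (hC _) ENNReal.toReal_nonneg
  have h3 : ∀ x, f (a * x) - f x ≤ ⨆ x, f (a * x) - f x := fun x =>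
    le_ciSup (f := fun x => f (a * x) - f x) ⟨C + C, by
      rintro _ ⟨y, rfl⟩
      linarith [(abs_le.mp (hC (a * y))).2, (abs_le.mp (hC y)).1]⟩ x
  have h4 : ∀ δ > 0, ∃ x, a * x = x * a ∧ (⨆ x, f (a * x) - f x) - (f (a * x) - f x) ≤ δ := by
    intro δ hδ
    obtain ⟨x, hx⟩ := exists_lt_of_lt_ciSup
      (show (⨆ x, f (a * x) - f x) - δ < ⨆ x, f (a * x) - f x by linarith)
    exact ⟨x, mul_comm _ _, by linarith⟩
  generalize (⨆ x, f (a * x) - f x) = M at h3 h4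
  have h5 : ∀ s x, (μ s).toReal * (M - (f (a * (x * s)) - f (x * s))) ≤ M - (f (a * x) - f x) := by
    intro s x
    have := (w1.mul_right M).sub ((w2 (a * x)).sub (w2 x))
    simp only [← mul_sub, one_mul, mul_assoc] at this
    exact le_hasSum this s fun h _ => mul_nonneg ENNReal.toReal_nonneg (sub_nonneg.mpr (h3 _))
  obtain ⟨c, h6, h7⟩ := harnack h2 (fun x => M - (f (a * x) - f x)) (fun s hs => by
    have : 0 < (μ s).toReal := ENNReal.toReal_pos hs (μ.apply_ne_top s)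
    refine ⟨(μ s).toReal⁻¹, by positivity, fun x => ?_⟩
    simp only [le_inv_mul_iff₀ this]
    exact ⟨h5 s x, h1 s ▸ h5 s⁻¹ x⟩) a
  linarith [cd f C hC a M c h6 h7 h4, h3 x]

theorem result : ∃ (G : Type) (_ : Group G) (_ : Countable G), letI : MeasurableSpace G := ⊤
    ∃ μ : PMF G, (∀ g, μ g⁻¹ = μ g) ∧ Subgroup.closure μ.support = ⊤ ∧
      (∀ f : G → ℝ, (∃ C, ∀ g, |f g| ≤ C) → (∀ g, f g = ∑' h, (μ h).toReal * f (g * h)) →
        ∀ g h, f g = f h) ∧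
      ∃ n : ℕ, 1 ≤ n ∧ ¬ ∀ᵐ z ∂(Measure.infinitePi fun _ : ℕ => μ.toMeasure),
        Subsemigroup.closure (Set.range fun k : ℕ => ((List.range (n + k)).map z).prod) = ⊤ := by
  let : MeasurableSpace Z := ⊤
  obtain ⟨μ, h1, h2, h3⟩ := notAR_Z (MulEquiv.refl Z)
  refine ⟨Z, inferInstance, inferInstance, μ, h1, h2, fun f ⟨C, hC⟩ hf g h => ?_, 1, le_rfl, h3⟩
  exact le_antisymm (by simpa using cd_le μ h1 h2 f C hC hf (g * h⁻¹) h)
    (by simpa using cd_le μ h1 h2 f C hC hf (h * g⁻¹) g)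

end Pool.Agent.Results.MP_a29a94_pr.Abelian
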